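import Pool.Agent.Q74.PD.Stm10

set_option autoImplicit false

/-!
# Project PD of helper74, job Nwc
-/

namespace Pool.Agent.Q164.PD

open Finset
open Pool.Agent.H499R2.ND Pool.Agent.H320R2.PD Pool.Agent.Y856.PD Pool.Agent.Q74.PD

/-- the number of the words of length `n` with sum `s` -/
def cw (A n s : ℕ) : ℕ := ∑ w ∈ FW A n, if w.sum = s then 1 else 0

theorem cw_zero {A n : ℕ} (hn : 1 ≤ n) : cw A n 0 = 0 := by
  refine Finset.sum_eq_zero fun w hw => ?_
  obtain ⟨h1, h2⟩ := mem_FW.1 hw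
  rw [if_neg]
  intro h
  rcases w with _ | ⟨e, v⟩
  · simp only [List.length_nil] at h1
    omega
  · have h3 := (h2 e (List.mem_cons_self)).1
    rw [List.sum_cons] at h
    omega

theorem cw_succ {A n s : ℕ} (hs : s ≤ A) : cw A (n + 1) s = ∑ j ∈ range s, cw A n j := by
  unfold cw
  rw [sum_FW_succ, Finset.sum_comm, Finset.sum_comm (s := range s)]
  refine Finset.sum_congr rfl fun v _ => ?_
  by_cases h : v.sum < s
  · rw [Finset.sum_eq_single (s - v.sum), Finset.sum_eq_single v.sum]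
    · rw [List.sum_cons, if_pos (by omega), if_pos rfl]
    · intro j _ hj
      rw [if_neg (fun h => hj h.symm)]
    · intro h2
      exact absurd (Finset.mem_range.2 h) h2
    · intro e he hne
      rw [List.sum_cons, if_neg (by omega)]
    · intro h2
      exact absurd (Finset.mem_Icc.2 ⟨by omega, by omega⟩) h2
  · rw [Finset.sum_eq_zero, Finset.sum_eq_zero]
    · intro j hj
      rw [Finset.mem_range] at hj
      rw [if_neg (by omega)]
    · intro e he
      rw [Finset.mem_Icc] at he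
      rw [List.sum_cons, if_neg (by omega)]

theorem cw_eq (A n : ℕ) : ∀ s, s + 1 ≤ A → cw A (n + 1) (s + 1) = s.choose n := by
  induction n with
  | zero =>
    intro s hs
    rw [cw_succ hs, Nat.choose_zero_right, Finset.sum_eq_single 0]
    · show ∑ w ∈ FW A 0, (if w.sum = 0 then 1 else 0) = 1
      rw [FW, Finset.sum_singleton, List.sum_nil, if_pos rfl]
    · intro j _ hj
      show ∑ w ∈ FW A 0, (if w.sum = j then 1 else 0) = 0
      rw [FW, Finset.sum_singleton, List.sum_nil, if_neg (fun h => hj h.symm)]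
    · intro h
      exact absurd (Finset.mem_range.2 (by omega)) h
  | succ n ih =>
    intro s hs
    rw [cw_succ hs, Finset.sum_range_succ', cw_zero (by omega), add_zero]
    have h1 : ∀ j ∈ range s, cw A (n + 1) (j + 1) = j.choose n := by
      intro j hj
      rw [Finset.mem_range] at hj
      exact ih j (by omega)
    rw [Finset.sum_congr rfl h1]
    clear h1 hs
    induction s with
    | zero => simp
    | succ s ihs => rw [Finset.sum_range_succ, ihs, Nat.choose_succ_succ, add_comm]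

/-- the number of the words -/
theorem card_words {k : ℕ} (hk : 1 ≤ k) : 4 * cw (4 * k) (3 * k) (4 * k) = 3 * (4 * k).choose k := by
  obtain ⟨m, rfl⟩ : ∃ m, k = m + 1 := ⟨k - 1, by omega⟩
  have e1 : 3 * (m + 1) = (3 * m + 2) + 1 := by ring
  have e2 : 4 * (m + 1) = (4 * m + 3) + 1 := by ring
  rw [e1, e2, cw_eq _ _ _ le_rfl]
  have h1 := Nat.add_one_mul_choose_eq (4 * m + 3) (3 * m + 2)
  have h2 : (4 * m + 3 + 1).choose (3 * m + 2 + 1) = (4 * m + 3 + 1).choose (m + 1) :=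
    Nat.choose_symm_of_eq_add (by ring)
  rw [h2] at h1
  have h3 : (m + 1) * (4 * (4 * m + 3).choose (3 * m + 2)) = (m + 1) * (3 * (4 * m + 3 + 1).choose (m + 1)) := by
    calc (m + 1) * (4 * (4 * m + 3).choose (3 * m + 2)) = (4 * m + 3 + 1) * (4 * m + 3).choose (3 * m + 2) := by ring
      _ = (4 * m + 3 + 1).choose (m + 1) * (3 * m + 2 + 1) := h1
      _ = _ := by ring
  exact Nat.eq_of_mul_eq_mul_left (by omega) h3

/-- the ratio of the binomial coefficients -/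
theorem choose_ratio (k : ℕ) : (4 * k + 4).choose (k + 1) * ((3 * k + 1) * (3 * k + 2) * (3 * k + 3)) =
    4 * (4 * k).choose k * ((4 * k + 1) * (4 * k + 2) * (4 * k + 3)) := by
  have a1 := Nat.choose_mul_succ_eq (4 * k) k
  have a2 := Nat.choose_mul_succ_eq (4 * k + 1) k
  have a3 := Nat.choose_mul_succ_eq (4 * k + 2) k
  have a4 := Nat.add_one_mul_choose_eq (4 * k + 3) k
  rw [show 4 * k + 1 - k = 3 * k + 1 by omega] at a1
  rw [show 4 * k + 1 + 1 - k = 3 * k + 2 by omega] at a2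
  rw [show 4 * k + 2 + 1 - k = 3 * k + 3 by omega] at a3
  have b2 : (4 * k + 1).choose k * (4 * k + 2) = (4 * k + 2).choose k * (3 * k + 2) := a2
  have b3 : (4 * k + 2).choose k * (4 * k + 3) = (4 * k + 3).choose k * (3 * k + 3) := a3
  have b4 : (4 * k + 4) * (4 * k + 3).choose k = (4 * k + 4).choose (k + 1) * (k + 1) := a4
  have h : (k + 1) * ((4 * k + 4).choose (k + 1) * ((3 * k + 1) * (3 * k + 2) * (3 * k + 3))) =
      (k + 1) * (4 * (4 * k).choose k * ((4 * k + 1) * (4 * k + 2) * (4 * k + 3))) := by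
    calc (k + 1) * ((4 * k + 4).choose (k + 1) * ((3 * k + 1) * (3 * k + 2) * (3 * k + 3))) =
        ((4 * k + 4).choose (k + 1) * (k + 1)) * ((3 * k + 1) * (3 * k + 2) * (3 * k + 3)) := by ring
      _ = ((4 * k + 4) * (4 * k + 3).choose k) * ((3 * k + 1) * (3 * k + 2) * (3 * k + 3)) := by rw [b4]
      _ = (4 * k + 4) * ((3 * k + 1) * (3 * k + 2)) * ((4 * k + 3).choose k * (3 * k + 3)) := by ring
      _ = (4 * k + 4) * ((3 * k + 1) * (3 * k + 2)) * ((4 * k + 2).choose k * (4 * k + 3)) := by rw [b3]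
      _ = (4 * k + 4) * (3 * k + 1) * (4 * k + 3) * ((4 * k + 2).choose k * (3 * k + 2)) := by ring
      _ = (4 * k + 4) * (3 * k + 1) * (4 * k + 3) * ((4 * k + 1).choose k * (4 * k + 2)) := by rw [b2]
      _ = (4 * k + 4) * (4 * k + 3) * (4 * k + 2) * ((4 * k + 1).choose k * (3 * k + 1)) := by ring
      _ = (4 * k + 4) * (4 * k + 3) * (4 * k + 2) * ((4 * k).choose k * (4 * k + 1)) := by rw [a1]
      _ = _ := by ring
  exact Nat.eq_of_mul_eq_mul_left (by omega) h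

theorem choose_low (k : ℕ) : (256 / 27 : ℝ) ^ k ≤ ((4 * k).choose k : ℝ) * (4 * k + 1) := by
  induction k with
  | zero => simp
  | succ k ih =>
    have h1 := choose_ratio k
    have e : (4 * (k + 1)).choose (k + 1) = (4 * k + 4).choose (k + 1) := by ring_nf
    rw [e]
    obtain ⟨A, hA⟩ : ∃ A : ℝ, A = ((4 * k).choose k : ℝ) := ⟨_, rfl⟩
    obtain ⟨B, hB⟩ : ∃ B : ℝ, B = ((4 * k + 4).choose (k + 1) : ℝ) := ⟨_, rfl⟩
    have h2 : B * ((3 * (k : ℝ) + 1) * (3 * k + 2) * (3 * k + 3)) =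
        4 * A * ((4 * (k : ℝ) + 1) * (4 * k + 2) * (4 * k + 3)) := by
      rw [hA, hB]
      exact_mod_cast h1
    rw [← hA] at ih
    rw [← hB, pow_succ]
    push_cast
    have hk : (0 : ℝ) ≤ k := Nat.cast_nonneg k
    have hA0 : 0 ≤ A := by rw [hA]; positivity
    have hP : (0 : ℝ) < (3 * (k : ℝ) + 1) * (3 * k + 2) * (3 * k + 3) := by positivity
    have h3 : (256 / 27 : ℝ) * ((3 * (k : ℝ) + 1) * (3 * k + 2) * (3 * k + 3)) ≤
        4 * ((4 * k + 2) * (4 * k + 3)) * (4 * k + 5) := by nlinarith [mul_nonneg hk hk, mul_nonneg hk (mul_nonneg hk hk)]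
    have h4 : 0 ≤ A * (4 * k + 1) := by positivity
    have h5 : (256 / 27 : ℝ) ^ k * (256 / 27) ≤ A * (4 * k + 1) * (256 / 27) := by gcongr
    refine h5.trans ?_
    refine le_of_mul_le_mul_right ?_ hP
    calc A * (4 * k + 1) * (256 / 27) * ((3 * (k : ℝ) + 1) * (3 * k + 2) * (3 * k + 3)) =
        A * (4 * k + 1) * ((256 / 27 : ℝ) * ((3 * (k : ℝ) + 1) * (3 * k + 2) * (3 * k + 3))) := by ring
      _ ≤ A * (4 * k + 1) * (4 * ((4 * k + 2) * (4 * k + 3)) * (4 * k + 5)) := by gcongr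
      _ = (4 * A * ((4 * (k : ℝ) + 1) * (4 * k + 2) * (4 * k + 3))) * (4 * k + 5) := by ring
      _ = (B * ((3 * (k : ℝ) + 1) * (3 * k + 2) * (3 * k + 3))) * (4 * k + 5) := by rw [h2]
      _ = _ := by ring

open Classical in
/-- two classes for each word -/
theorem two_le (n N : ℕ) (c : ℤ) : 2 ≤ ∑ b ∈ range (3 ^ (n + 1)),
    (if (3 : ℤ) ^ n ∣ 2 ^ N * (b : ℤ) - c ∧ ¬ (3 : ℤ) ^ (n + 1) ∣ 2 ^ N * (b : ℤ) - c then 1 else 0) := by
  have hcop : IsCoprime ((2 : ℤ) ^ N) ((3 : ℤ) ^ (n + 1)) := by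
    apply IsCoprime.pow
    norm_num
  obtain ⟨u, v, huv⟩ := hcop
  have h3 : (0 : ℤ) < 3 ^ (n + 1) := by positivity
  -- the two classes
  have hex : ∀ j : ℤ, ∃ b : ℕ, b < 3 ^ (n + 1) ∧ (3 : ℤ) ^ (n + 1) ∣ 2 ^ N * (b : ℤ) - c - j * 3 ^ n := by
    intro j
    refine ⟨((u * (c + j * 3 ^ n)) % 3 ^ (n + 1)).toNat, ?_, ?_⟩
    · have h4 := Int.emod_lt_of_pos (u * (c + j * 3 ^ n)) h3
      zify
      rw [Int.toNat_of_nonneg (Int.emod_nonneg _ h3.ne')]
      exact h4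
    · rw [Int.toNat_of_nonneg (Int.emod_nonneg _ h3.ne')]
      have h4 := Int.emod_add_mul_ediv (u * (c + j * 3 ^ n)) (3 ^ (n + 1))
      obtain ⟨q, hq⟩ : ∃ q, q = u * (c + j * 3 ^ n) / 3 ^ (n + 1) := ⟨_, rfl⟩
      obtain ⟨r, hr⟩ : ∃ r, r = u * (c + j * 3 ^ n) % 3 ^ (n + 1) := ⟨_, rfl⟩
      rw [← hq, ← hr] at h4
      rw [← hr]
      refine ⟨-(2 ^ N * q) - v * (c + j * 3 ^ n), ?_⟩
      have h5 : r = u * (c + j * 3 ^ n) - 3 ^ (n + 1) * q := by linarith
      rw [h5]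
      linear_combination (c + j * 3 ^ n) * huv
  obtain ⟨b1, hb1, hd1⟩ := hex 1
  obtain ⟨b2, hb2, hd2⟩ := hex 2
  have hne : b1 ≠ b2 := by
    rintro rfl
    have h4 := dvd_sub hd1 hd2
    have h5 : (2 : ℤ) ^ N * (b1 : ℤ) - c - 1 * 3 ^ n - (2 ^ N * (b1 : ℤ) - c - 2 * 3 ^ n) = 3 ^ n := by ring
    rw [h5] at h4
    have h6 := Int.le_of_dvd (by positivity) h4
    rw [pow_succ] at h6
    have h7 : (0 : ℤ) < 3 ^ n := by positivity
    omega
  have hpr : ∀ (j : ℤ) (b : ℕ), (j = 1 ∨ j = 2) → (3 : ℤ) ^ (n + 1) ∣ 2 ^ N * (b : ℤ) - c - j * 3 ^ n →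
      (3 : ℤ) ^ n ∣ 2 ^ N * (b : ℤ) - c ∧ ¬ (3 : ℤ) ^ (n + 1) ∣ 2 ^ N * (b : ℤ) - c := by
    intro j b hj hd
    constructor
    · have h4 : (3 : ℤ) ^ n ∣ 2 ^ N * (b : ℤ) - c - j * 3 ^ n := (pow_dvd_pow 3 (Nat.le_succ n)).trans hd
      have h5 : (3 : ℤ) ^ n ∣ j * 3 ^ n := Dvd.intro_left j rfl
      have h6 := dvd_add h4 h5
      rwa [sub_add_cancel] at h6
    · intro h4
      have h5 := dvd_sub h4 hd
      have h6 : (2 : ℤ) ^ N * (b : ℤ) - c - (2 ^ N * (b : ℤ) - c - j * 3 ^ n) = j * 3 ^ n := by ring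
      rw [h6, pow_succ, mul_comm ((3 : ℤ) ^ n) 3] at h5
      have h7 : (3 : ℤ) ∣ j := Int.dvd_of_mul_dvd_mul_right (by positivity) h5
      omega
  have hsub : ({b1, b2} : Finset ℕ) ⊆ range (3 ^ (n + 1)) := by
    intro x hx
    rw [Finset.mem_insert, Finset.mem_singleton] at hx
    rw [Finset.mem_range]
    rcases hx with rfl | rfl
    · exact hb1
    · exact hb2
  refine le_trans ?_ (Finset.sum_le_sum_of_subset hsub)
  rw [Finset.sum_pair hne, if_pos (hpr 1 b1 (Or.inl rfl) hd1), if_pos (hpr 2 b2 (Or.inr rfl) hd2)]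

open Classical in
theorem nwc : S_Nwc := by
  intro d _ k hk
  constructor
  · intro b x
    unfold Nw
    congr 1
    refine Finset.filter_congr fun w _ => ?_
    have e : (2 : ℤ) ^ (4 * k) * (b + 3 ^ (3 * k + 1) * x) - d * Wo w =
        (2 ^ (4 * k) * b - d * Wo w) + 3 ^ (3 * k + 1) * (2 ^ (4 * k) * x) := by ring
    have h1 : (3 : ℤ) ^ (3 * k + 1) ∣ 2 ^ (4 * k) * (b + 3 ^ (3 * k + 1) * x) - d * Wo w ↔
        (3 : ℤ) ^ (3 * k + 1) ∣ 2 ^ (4 * k) * b - d * Wo w := by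
      rw [e]
      exact Int.dvd_add_left (Dvd.intro _ rfl)
    have h2 : (3 : ℤ) ^ (3 * k) ∣ 2 ^ (4 * k) * (b + 3 ^ (3 * k + 1) * x) - d * Wo w ↔
        (3 : ℤ) ^ (3 * k) ∣ 2 ^ (4 * k) * b - d * Wo w := by
      rw [e]
      exact Int.dvd_add_left ((pow_dvd_pow 3 (Nat.le_succ _)).trans (Dvd.intro _ rfl))
    rw [h1, h2]
  · have hN : 2 * cw (4 * k) (3 * k) (4 * k) ≤ ∑ b ∈ range (3 ^ (3 * k + 1)), Nw d k b := by
      have e1 : ∀ b ∈ range (3 ^ (3 * k + 1)), Nw d k (b : ℤ) = ∑ w ∈ FW (4 * k) (3 * k),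
          (if w.sum = 4 * k then (if (3 : ℤ) ^ (3 * k) ∣ 2 ^ (4 * k) * (b : ℤ) - d * Wo w ∧
            ¬ (3 : ℤ) ^ (3 * k + 1) ∣ 2 ^ (4 * k) * (b : ℤ) - d * Wo w then 1 else 0) else 0) := by
        intro b _
        unfold Nw
        rw [Finset.card_filter]
        refine Finset.sum_congr rfl fun w _ => ?_
        by_cases h : w.sum = 4 * k
        · rw [if_pos h]
          by_cases h2 : (3 : ℤ) ^ (3 * k) ∣ 2 ^ (4 * k) * (b : ℤ) - d * Wo w ∧
            ¬ (3 : ℤ) ^ (3 * k + 1) ∣ 2 ^ (4 * k) * (b : ℤ) - d * Wo w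
          · rw [if_pos h2, if_pos ⟨h, h2⟩]
          · rw [if_neg h2, if_neg (fun h3 => h2 h3.2)]
        · rw [if_neg h, if_neg (fun h3 => h h3.1)]
      rw [Finset.sum_congr rfl e1, Finset.sum_comm]
      unfold cw
      rw [Finset.mul_sum]
      refine Finset.sum_le_sum fun w _ => ?_
      by_cases h : w.sum = 4 * k
      · simp only [if_pos h]
        exact two_le (3 * k) (4 * k) (d * Wo w)
      · simp only [if_neg h]
        simp
    have h1 := card_words hk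
    have h2 := choose_low k
    have h3 : (2 * cw (4 * k) (3 * k) (4 * k) : ℝ) ≤ ∑ b ∈ range (3 ^ (3 * k + 1)), (Nw d k b : ℝ) := by
      exact_mod_cast hN
    have h4 : 4 * (cw (4 * k) (3 * k) (4 * k) : ℝ) = 3 * ((4 * k).choose k : ℝ) := by exact_mod_cast h1
    have h5 : (256 / 27 : ℝ) ^ k / (4 * k + 1) ≤ ((4 * k).choose k : ℝ) := by
      rw [div_le_iff₀ (by positivity)]
      exact h2
    have h6 : (0 : ℝ) ≤ ((4 * k).choose k : ℝ) := Nat.cast_nonneg _
    linarith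

end Pool.Agent.Q164.PD
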